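import Pool.Agent.Lib_helper2.K4R.Ram

set_option autoImplicit false
set_option linter.unusedSectionVars false

/-!
The classes `ξ(aP,bP)`, `P` of prime order, have no residues.
-/

namespace Pool.Agent.K4R

open K4M Pool.Agent.K4Par
open scoped TensorProduct WithZero

section Main

variable {F : Type*} [Field F] [CharZero F] [DecidableEq F] {W : WeierstrassCurve.Affine F}
  {A : AddSubgroup W.Point} [Fintype A] {v : Valuation F ℤᵐ⁰}

lemma isT_zero {A B : Type*} [AddCommGroup A] [AddCommGroup B] [Module ℚ B] {t : A → A → B}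
    (ht : IsT t) (b : A) : t 0 b = 0 := by
  have h1 := ht.rot 0 b
  rw [neg_zero, zero_sub] at h1
  have h2 := ht.swap b (-b)
  have h3 := ht.even b (-b)
  rw [neg_neg] at h3
  rw [h3] at h2
  rw [← h1]
  have h4 : (2 : ℚ) • t b (-b) = 0 := by
    rw [two_smul]
    nth_rewrite 1 [h2]
    exact neg_add_cancel _
  exact (smul_eq_zero.mp h4).resolve_left two_ne_zero

/-- **No residues** -/
theorem no_res (hA : (Nat.card A).Coprime 6) {g : A → FT F} (hg : IsG4 A g)
    [Infinite (rf v)] {p : ℕ} (hp : p.Prime) (P : A) (hP : p • P = 0) (a b : ℤ) :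
    resL v (hk (tA A (a • P) (b • P)) (g (b • P) - g (a • P))) = 0 := by
  rw [resL_hk]
  by_cases hP0 : P = 0
  · rw [hP0, smul_zero, smul_zero, sub_self, map_zero, zero_smul]
  have h2 := inj_two hA
  have h3 := inj_three hA
  have hp2 : p ≠ 2 := by
    rintro rfl
    apply hP0
    apply h2
    show P + P = 0 + 0
    rw [← two_nsmul, hP, add_zero]
  have hp3 : p ≠ 3 := by
    rintro rfl
    apply hP0
    apply h3
    show P + P + P = 0 + 0 + 0
    rw [add_zero, add_zero, ← hP, succ_nsmul, two_nsmul]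
  have hp5 : 5 ≤ p := by
    have h4 : p ≠ 4 := by rintro rfl; exact absurd hp (by norm_num)
    have := hp.two_le
    omega
  have hpz : (5 : ℤ) ≤ p := by exact_mod_cast hp5
  -- the generator of maximal order
  have VP := vd (v := v) hp hg hP hP0
  obtain ⟨s, hs, hmax⟩ := Finset.exists_max_image (Finset.Icc (1 : ℤ) (p - 1)) (GQ v g P)
    ⟨1, by rw [Finset.mem_Icc]; constructor <;> omega⟩
  rw [Finset.mem_Icc] at hs
  have hps : ¬ (p : ℤ) ∣ s := not_dvd_of_lt (by omega) (by omega)
  set Q : A := s • P with hQdef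
  have hQ : p • Q = 0 := by rw [hQdef, smul_comm, hP, smul_zero]
  have hQ0 : Q ≠ 0 := by rw [hQdef, ne_eq, zsmul_zero_iff hp hP hP0]; exact hps
  have VQ := vd (v := v) hp hg hQ hQ0
  have gq : ∀ k : ℤ, GQ v g Q k = GQ v g P (k * s) := by
    intro k
    unfold GQ
    rw [hQdef, ← mul_smul]
  have hmax' : ∀ k, ¬ (p : ℤ) ∣ k → GQ v g Q k ≤ GQ v g Q 1 := by
    intro k hk
    rw [gq, gq, one_mul, ← VP.emod (k * s)]
    apply hmax
    have hp0 : (0 : ℤ) < p := by omega
    have h1 := Int.emod_nonneg (k * s) hp0.ne'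
    have h2 := Int.emod_lt_of_pos (k * s) hp0
    have h3 : (k * s) % p ≠ 0 := by
      intro h
      rcases (Nat.prime_iff_prime_int.mp hp).dvd_or_dvd (Int.dvd_of_emod_eq_zero h) with h | h
      · exact hk h
      · exact hps h
    rw [Finset.mem_Icc]
    constructor <;> omega
  have hPQ : ∃ u : ℤ, P = u • Q := by
    have hc : IsCoprime s (p : ℤ) := by
      rw [isCoprime_comm]
      exact (Int.prime_iff_natAbs_prime.mpr (by simpa using hp)).coprime_iff_not_dvd.mpr hps
    obtain ⟨u, w, huw⟩ := hc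
    refine ⟨u, ?_⟩
    have : P = (u * s + w * p) • P := by rw [huw, one_smul]
    conv_lhs => rw [this]
    rw [add_smul, mul_smul, mul_smul, natCast_zsmul, hP, smul_zero, add_zero]
  obtain ⟨u, hu⟩ := hPQ
  have ea : a • P = (a * u) • Q := by rw [mul_smul, ← hu]
  have eb : b • P = (b * u) • Q := by rw [mul_smul, ← hu]
  rw [ea, eb]
  have ht := final_isT (W := W) (A := A) hA
  rcases VQ.dichotomy hp5 hmax' with hcon | ⟨m, hm, hber⟩
  · by_cases hj : (p : ℤ) ∣ a * u
    · rw [(zsmul_zero_iff hp hQ hQ0 _).mpr hj, isT_zero ht, map_zero, smul_zero]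
    by_cases hk : (p : ℤ) ∣ b * u
    · rw [(zsmul_zero_iff hp hQ hQ0 _).mpr hk, ht.swap, isT_zero ht, neg_zero, map_zero, smul_zero]
    have h1 := hcon _ hj
    have h2 := hcon _ hk
    unfold GQ at h1 h2
    have h3 : valL v (g ((b * u) • Q) - g ((a * u) • Q)) = 0 := by
      rw [map_sub]
      linarith
    rw [h3, zero_smul]
  · rw [bern_t hA hp hp5 hg hQ hQ0 hm hber (AddSubgroup.zsmul_mem_zmultiples Q _)
      (AddSubgroup.zsmul_mem_zmultiples Q _), smul_zero]

end Main

end Pool.Agent.K4R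

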