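import Mathlib

set_option autoImplicit false

/-!
An even periodic function on the integers whose second differences form an ultrametric is constant
or a Bernoulli polynomial.
-/

namespace Pool.Agent.K4R

/-- `j`, `k`, `j - k`, `j + k` are not multiples of `p` -/
def Adm (p : ℕ) (j k : ℤ) : Prop :=
  ¬ (p : ℤ) ∣ j ∧ ¬ (p : ℤ) ∣ k ∧ ¬ (p : ℤ) ∣ (j - k) ∧ ¬ (p : ℤ) ∣ (j + k)

lemma Adm.symm {p : ℕ} {j k : ℤ} (h : Adm p j k) : Adm p k j :=
  ⟨h.2.1, h.1, by rw [← dvd_neg, neg_sub]; exact h.2.2.1, by rw [add_comm]; exact h.2.2.2⟩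

lemma not_dvd_of_lt {p : ℕ} {k : ℤ} (h0 : 0 < k) (h1 : k < p) : ¬ (p : ℤ) ∣ k := fun h =>
  absurd (Int.le_of_dvd h0 h) (not_le.mpr h1)

lemma adm_range {p : ℕ} {j k : ℤ} (h0 : 0 < j) (h1 : j < k) (h2 : k < p) (h3 : j + k ≠ p) :
    Adm p j k := by
  refine ⟨not_dvd_of_lt h0 (h1.trans h2), not_dvd_of_lt (h0.trans h1) h2, ?_, ?_⟩
  · rw [← dvd_neg, neg_sub]
    exact not_dvd_of_lt (by omega) (by omega)
  · rintro ⟨c, hc⟩
    have hp : (0 : ℤ) < p := by omega
    have c1 : 0 < c := by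
      by_contra hcon
      have : (p : ℤ) * c ≤ 0 := mul_nonpos_of_nonneg_of_nonpos hp.le (by omega)
      omega
    have c2 : c < 2 := by
      by_contra hcon
      have : (p : ℤ) * 2 ≤ p * c := mul_le_mul_of_nonneg_left (by omega) hp.le
      omega
    have : c = 1 := by omega
    rw [this, mul_one] at hc
    exact h3 hc

structure VD (p : ℕ) (G : ℤ → ℚ) (D : ℤ → ℤ → ℚ) : Prop where
  ev : ∀ k, G (-k) = G k
  per : ∀ k, G (k + p) = G k
  dd : ∀ j k, Adm p j k → D j k = G (j + k) + G (j - k) - 2 * G j - 2 * G k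
  ult : ∀ i j k, Adm p i j → Adm p j k → Adm p i k → min (D i j) (D j k) ≤ D i k

variable {p : ℕ} {G : ℤ → ℚ} {D : ℤ → ℤ → ℚ}

lemma VD.perm (h : VD p G D) (k c : ℤ) : G (k + p * c) = G k := by
  induction c using Int.induction_on with
  | zero => rw [mul_zero, add_zero]
  | succ n ih =>
    rw [mul_add, mul_one, ← add_assoc, h.per, ih]
  | pred n ih =>
    have := h.per (k + p * (-n - 1))
    rw [← this, ← ih]
    congr 1
    ring

lemma VD.emod (h : VD p G D) (k : ℤ) : G (k % p) = G k := by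
  have h1 := Int.emod_add_mul_ediv k p
  rw [← h1, h.perm, h1]

lemma VD.congr (h : VD p G D) {j k : ℤ} (hjk : (p : ℤ) ∣ (j - k)) : G j = G k := by
  obtain ⟨c, hc⟩ := hjk
  have : j = k + p * c := by rw [← hc]; ring
  rw [this, h.perm]

lemma VD.congr' (h : VD p G D) {j k : ℤ} (hjk : (p : ℤ) ∣ (j + k)) : G j = G k := by
  rw [← h.ev k]
  exact h.congr (by rw [sub_neg_eq_add]; exact hjk)

/-- the normalised second difference -/
def nd (G : ℤ → ℚ) (j k : ℤ) : ℚ := G (j + k) + G (j - k) - 2 * G j - 2 * G k + 2 * G 1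

lemma VD.nd_comm (h : VD p G D) (j k : ℤ) : nd G j k = nd G k j := by
  unfold nd
  rw [add_comm j k, ← h.ev (j - k), neg_sub]
  ring

lemma VD.nd_ult (h : VD p G D) {i j k : ℤ} (h1 : Adm p i j) (h2 : Adm p j k) (h3 : Adm p i k) :
    min (nd G i j) (nd G j k) ≤ nd G i k := by
  have e1 := h.dd _ _ h1
  have e2 := h.dd _ _ h2
  have e3 := h.dd _ _ h3
  have hu := h.ult _ _ _ h1 h2 h3
  have f1 : nd G i j = D i j + 2 * G 1 := by unfold nd; rw [e1]
  have f2 : nd G j k = D j k + 2 * G 1 := by unfold nd; rw [e2]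
  have f3 : nd G i k = D i k + 2 * G 1 := by unfold nd; rw [e3]
  rw [f1, f2, f3, min_add_add_right]
  linarith

lemma VD.exists_min (h : VD p G D) (hp : 1 < p) :
    ∃ s : ℤ, 0 < s ∧ s < p ∧ ∀ k, ¬ (p : ℤ) ∣ k → G s ≤ G k := by
  obtain ⟨s, hs, hm⟩ := Finset.exists_min_image (Finset.Icc (1 : ℤ) (p - 1)) G
    ⟨1, by rw [Finset.mem_Icc]; constructor <;> omega⟩
  rw [Finset.mem_Icc] at hs
  refine ⟨s, by omega, by omega, fun k hk => ?_⟩
  rw [← h.emod k]
  apply hm
  have hp0 : (0 : ℤ) < p := by omega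
  have h1 := Int.emod_nonneg k hp0.ne'
  have h2 := Int.emod_lt_of_pos k hp0
  have h3 : k % p ≠ 0 := fun h => hk (Int.dvd_of_emod_eq_zero h)
  rw [Finset.mem_Icc]
  constructor <;> omega

/-- all normalised second differences are non-negative -/
lemma VD.nd_nonneg (h : VD p G D) (hp : 1 < p) (hmax : ∀ k, ¬ (p : ℤ) ∣ k → G k ≤ G 1) {a b : ℤ}
    (hab : Adm p a b) : 0 ≤ nd G a b := by
  obtain ⟨s, hs0, hsp, hs⟩ := h.exists_min hp
  have key : ∀ {j k : ℤ}, Adm p j k → G k = G s → 0 ≤ nd G j k := by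
    intro j k hjk hk
    have h1 := hs _ hjk.2.2.1
    have h2 := hs _ hjk.2.2.2
    have h3 := hmax _ hjk.1
    unfold nd
    rw [hk]
    linarith
  have hns : ¬ (p : ℤ) ∣ s := not_dvd_of_lt hs0 hsp
  have cas : ∀ {j : ℤ}, ¬ (p : ℤ) ∣ j → G j = G s ∨ Adm p j s := by
    intro j hj
    by_cases h1 : (p : ℤ) ∣ (j - s)
    · exact Or.inl (h.congr h1)
    by_cases h2 : (p : ℤ) ∣ (j + s)
    · exact Or.inl (h.congr' h2)
    exact Or.inr ⟨hj, hns, h1, h2⟩
  rcases cas hab.2.1 with h1 | h1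
  · exact key hab h1
  rcases cas hab.1 with h2 | h2
  · rw [h.nd_comm]
    exact key hab.symm h2
  have h3 := h.nd_ult h2 h1.symm hab
  have h4 := key h2 rfl
  have h5 := key h1 rfl
  rw [h.nd_comm s b] at h3
  exact (le_min h4 h5).trans h3

/-- **Classification**: constant or Bernoulli -/
theorem VD.dichotomy (h : VD p G D) (hp : 5 ≤ p) (hmax : ∀ k, ¬ (p : ℤ) ∣ k → G k ≤ G 1) :
    (∀ k, ¬ (p : ℤ) ∣ k → G k = G 1) ∨
    ∃ m : ℚ, 0 < m ∧ ∀ k : ℤ, 1 ≤ k → k < p → G k = G 1 + m / 2 * (k - 1) * (k + 1 - p) := by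
  have hp1 : 1 < p := by omega
  have hpz : (5 : ℤ) ≤ p := by exact_mod_cast hp
  -- second differences along the step one
  have e_eq : ∀ k : ℤ, nd G 1 k = G (k + 1) + G (k - 1) - 2 * G k := by
    intro k
    unfold nd
    rw [add_comm 1 k, ← h.ev (1 - k), neg_sub]
    ring
  have adm1 : ∀ k : ℤ, 2 ≤ k → k ≤ p - 2 → Adm p 1 k := fun k h1 h2 =>
    adm_range one_pos (by omega) (by omega) (by omega)
  have adm2 : ∀ k : ℤ, 3 ≤ k → k ≤ p - 3 → Adm p 2 k := fun k h1 h2 =>
    adm_range two_pos (by omega) (by omega) (by omega)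
  have e_nn : ∀ k : ℤ, 2 ≤ k → k ≤ p - 2 → 0 ≤ nd G 1 k := fun k h1 h2 =>
    h.nd_nonneg hp1 hmax (adm1 k h1 h2)
  have hlast : G (p - 1) = G 1 := by
    apply h.congr'
    rw [sub_add_cancel]
  have hmx : ∀ k : ℤ, 1 ≤ k → k < p → G k ≤ G 1 := fun k h1 h2 =>
    hmax k (not_dvd_of_lt (by omega) h2)
  by_cases hc : G 2 = G 1
  · -- constant
    left
    have hmono : ∀ n : ℕ, (n : ℤ) + 2 < p → 0 ≤ G ((n : ℤ) + 2) - G ((n : ℤ) + 1) := by
      intro n
      induction n with
      | zero =>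
        intro _
        rw [Nat.cast_zero, zero_add, zero_add, hc, sub_self]
      | succ n ih =>
        intro hn
        push_cast at hn ⊢
        have h1 := ih (by omega)
        have h2 := e_nn ((n : ℤ) + 2) (by omega) (by omega)
        rw [e_eq, show (n : ℤ) + 2 + 1 = (n : ℤ) + 1 + 2 by ring,
          show (n : ℤ) + 2 - 1 = (n : ℤ) + 1 by ring] at h2
        rw [show (n : ℤ) + 1 + 1 = (n : ℤ) + 2 by ring]
        linarith
    have hge : ∀ n : ℕ, (n : ℤ) + 1 < p → G 1 ≤ G ((n : ℤ) + 1) := by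
      intro n
      induction n with
      | zero => intro _; rw [Nat.cast_zero, zero_add]
      | succ n ih =>
        intro hn
        push_cast at hn ⊢
        have h1 := ih (by omega)
        have h2 := hmono n (by omega)
        rw [show (n : ℤ) + 1 + 1 = (n : ℤ) + 2 by ring]
        linarith
    intro k hk
    apply le_antisymm (hmax k hk)
    rw [← h.emod k]
    have hp0 : (0 : ℤ) < p := by omega
    have h1 := Int.emod_nonneg k hp0.ne'
    have h2 := Int.emod_lt_of_pos k hp0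
    have h3 : k % p ≠ 0 := fun h => hk (Int.dvd_of_emod_eq_zero h)
    obtain ⟨n, hn⟩ : ∃ n : ℕ, k % p = (n : ℤ) + 1 := ⟨(k % p - 1).toNat, by omega⟩
    rw [hn]
    exact hge n (by omega)
  · right
    have hlt : G 2 < G 1 := lt_of_le_of_ne (hmx 2 (by norm_num) (by omega)) hc
    -- the minimal second difference
    obtain ⟨k1, hk1, hm1⟩ := Finset.exists_min_image (Finset.Icc (2 : ℤ) (p - 2))
      (fun k => nd G 1 k) ⟨2, by rw [Finset.mem_Icc]; constructor <;> omega⟩
    rw [Finset.mem_Icc] at hk1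
    set m := nd G 1 k1 with hm
    have hm0 : 0 ≤ m := e_nn k1 hk1.1 hk1.2
    have hle : ∀ k : ℤ, 2 ≤ k → k ≤ p - 2 → m ≤ nd G 1 k := fun k h1 h2 =>
      hm1 k (by rw [Finset.mem_Icc]; exact ⟨h1, h2⟩)
    have d2 : ∀ k : ℤ, 3 ≤ k → k ≤ p - 3 → m < nd G 2 k := by
      intro k h1 h2
      have e0 : nd G 2 k = nd G 1 (k + 1) + 2 * nd G 1 k + nd G 1 (k - 1) + 2 * (G 1 - G 2) := by
        rw [e_eq, e_eq, e_eq]
        unfold nd
        rw [add_comm 2 k, ← h.ev (2 - k), neg_sub, show k + 1 + 1 = k + 2 by ring,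
          show k - 1 - 1 = k - 2 by ring, add_sub_cancel_right, sub_add_cancel]
        ring
      have a1 := hle (k + 1) (by omega) (by omega)
      have a2 := hle k (by omega) (by omega)
      have a3 := hle (k - 1) (by omega) (by omega)
      rw [e0]
      linarith
    have esym : nd G 1 (p - 2) = nd G 1 2 := by
      rw [e_eq, e_eq]
      have b1 : G ((p : ℤ) - 2 + 1) = G 1 := h.congr' (by ring_nf; exact dvd_refl _)
      have b2 : G ((p : ℤ) - 2 - 1) = G 3 := h.congr' (by ring_nf; exact dvd_refl _)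
      have b3 : G ((p : ℤ) - 2) = G 2 := h.congr' (by ring_nf; exact dvd_refl _)
      rw [b1, b2, b3]
      norm_num
      ring
    have e2 : nd G 1 2 = m := by
      by_contra hne
      have hgt : m < nd G 1 2 := lt_of_le_of_ne (hle 2 le_rfl (by omega)) (Ne.symm hne)
      have hk2 : k1 ≠ 2 := by rintro rfl; exact hne hm.symm
      have hk3 : k1 ≠ p - 2 := by
        intro h'
        rw [hm, h', esym] at hgt
        exact lt_irrefl _ hgt
      have h3 : 3 ≤ k1 := by omega
      have h4 : k1 ≤ p - 3 := by omega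
      have h5 := h.nd_ult (adm1 2 le_rfl (by omega)) (adm2 k1 h3 h4) (adm1 k1 hk1.1 hk1.2)
      have h6 := lt_min hgt (d2 k1 h3 h4)
      exact absurd (h6.trans_le h5) (lt_irrefl _)
    have eall : ∀ k : ℤ, 2 ≤ k → k ≤ p - 2 → nd G 1 k = m := by
      intro k h1 h2
      by_cases hk2 : k = 2
      · rw [hk2]; exact e2
      by_cases hk3 : k = p - 2
      · rw [hk3, esym]; exact e2
      have h3 : 3 ≤ k := by omega
      have h4 : k ≤ p - 3 := by omega
      refine le_antisymm ?_ (hle k h1 h2)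
      by_contra hcon
      rw [not_le] at hcon
      have h5 := h.nd_ult (adm1 k h1 h2) (adm2 k h3 h4).symm (adm1 2 le_rfl (by omega))
      rw [e2, h.nd_comm k 2] at h5
      exact absurd ((lt_min hcon (d2 k h3 h4)).trans_le h5) (lt_irrefl _)
    -- the recursion
    have hrec : ∀ n : ℕ, (n : ℤ) + 1 < p →
        G ((n : ℤ) + 1) = G 1 + n * (G 2 - G 1) + m / 2 * n * (n - 1) := by
      intro n
      induction n using Nat.strong_induction_on with
      | _ n ih =>
        intro hn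
        match n, ih, hn with
        | 0, _, _ => norm_num
        | 1, _, _ => norm_num
        | n + 2, ih, hn =>
          have h1 := ih (n + 1) (by omega) (by push_cast at hn ⊢; omega)
          have h2 := ih n (by omega) (by push_cast at hn ⊢; omega)
          have h3 := eall ((n : ℤ) + 2) (by omega) (by push_cast at hn; omega)
          rw [e_eq] at h3
          push_cast at h1 h2 h3 ⊢
          rw [show (n : ℤ) + 2 + 1 = (n : ℤ) + 2 + 1 from rfl,
            show (n : ℤ) + 2 - 1 = (n : ℤ) + 1 by ring, h2] at h3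
          rw [show (n : ℤ) + 1 + 1 = (n : ℤ) + 2 by ring] at h1
          rw [h1] at h3
          have h4 : G ((n : ℤ) + 2 + 1) = m + 2 * (G 1 + (↑n + 1) * (G 2 - G 1) +
            m / 2 * (↑n + 1) * (↑n + 1 - 1)) - (G 1 + ↑n * (G 2 - G 1) + m / 2 * ↑n * (↑n - 1)) := by
            linarith
          rw [h4]
          ring
    have hd : G 2 - G 1 = - (m / 2 * (p - 3)) := by
      have h1 := hrec (p - 2) (by omega)
      have hc2 : (((p - 2 : ℕ)) : ℚ) = p - 2 := by
        rw [Nat.cast_sub (by omega)]; norm_num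
      have hc3 : (((p - 2 : ℕ)) : ℤ) + 1 = p - 1 := by omega
      rw [hc3, hlast, hc2] at h1
      have hp2 : (p : ℚ) - 2 ≠ 0 := by
        have : (5 : ℚ) ≤ p := by exact_mod_cast hp
        linarith
      have h2 : ((p : ℚ) - 2) * (G 2 - G 1 + m / 2 * (p - 3)) = 0 := by
        linear_combination -h1
      have h3 := (mul_eq_zero.mp h2).resolve_left hp2
      linarith
    have hmpos : 0 < m := by
      have h5 : (5 : ℚ) ≤ p := by exact_mod_cast hp
      by_contra hcon
      have : m = 0 := le_antisymm (not_lt.mp hcon) hm0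
      rw [this] at hd
      linarith
    refine ⟨m, hmpos, fun k h1 h2 => ?_⟩
    obtain ⟨n, hn⟩ : ∃ n : ℕ, k = (n : ℤ) + 1 := ⟨(k - 1).toNat, by omega⟩
    subst hn
    rw [hrec n h2, hd]
    push_cast
    ring

end Pool.Agent.K4R
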