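import Pool.Agent.Lib_helper2.K4R.Res
import Pool.Agent.Lib_helper2.K4R.Comb
import Pool.Agent.Lib_helper2.K4.Single
import Pool.Agent.Lib_helper60.K4M.Final1

set_option autoImplicit false
set_option linter.unusedSectionVars false

/-!
The classes `ξ(aP,bP)`, `P` of prime order, have no residues.
-/

namespace Pool.Agent.K4R

open K4M Pool.Agent.K4Par
open scoped TensorProduct WithZero

section Ram

variable {F : Type*} [Field F] [CharZero F] [DecidableEq F] {W : WeierstrassCurve.Affine F}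
  {A : AddSubgroup W.Point} [Fintype A] (v : Valuation F ℤᵐ⁰)

/-- order of vanishing -/
noncomputable def od (r : F) : ℤ := - WithZero.log (v r)

lemma od_mul {r s : F} (hr : r ≠ 0) (hs : s ≠ 0) : od v (r * s) = od v r + od v s := by
  unfold od
  rw [map_mul, WithZero.log_mul ((Valuation.ne_zero_iff v).mpr hr)
    ((Valuation.ne_zero_iff v).mpr hs)]
  ring

lemma od_inv (r : F) : od v r⁻¹ = - od v r := by
  unfold od
  rw [map_inv₀, WithZero.log_inv]

lemma od_div {r s : F} (hr : r ≠ 0) (hs : s ≠ 0) : od v (r / s) = od v r - od v s := by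
  rw [div_eq_mul_inv, od_mul v hr (inv_ne_zero hs), od_inv]
  ring

lemma od_one : od v (1 : F) = 0 := by
  unfold od
  rw [map_one, WithZero.log_one, neg_zero]

lemma od_neg (r : F) : od v (-r) = od v r := by
  unfold od
  rw [Valuation.map_neg]

lemma od_add {r s : F} (hr : r ≠ 0) (hs : s ≠ 0) (hrs : r + s ≠ 0) :
    min (od v r) (od v s) ≤ od v (r + s) := by
  have h := Valuation.map_add v r s
  have nr := (Valuation.ne_zero_iff v).mpr hr
  have ns := (Valuation.ne_zero_iff v).mpr hs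
  have nrs := (Valuation.ne_zero_iff v).mpr hrs
  rcases le_total (v r) (v s) with h1 | h1
  · rw [max_eq_right h1] at h
    have h2 := (WithZero.log_le_log nrs ns).mpr h
    exact (min_le_right _ _).trans (neg_le_neg h2)
  · rw [max_eq_left h1] at h
    have h2 := (WithZero.log_le_log nrs nr).mpr h
    exact (min_le_left _ _).trans (neg_le_neg h2)

lemma v_one_of_od {r : F} (hr : r ≠ 0) (h : od v r = 0) : v r = 1 := by
  have h1 : WithZero.log (v r) = 0 := by
    unfold od at h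
    omega
  have n := (Valuation.ne_zero_iff v).mpr hr
  apply le_antisymm
  · rw [← WithZero.log_le_log n one_ne_zero, h1, WithZero.log_one]
  · rw [← WithZero.log_le_log one_ne_zero n, h1, WithZero.log_one]

lemma sp_od {r : F} (h : od v r ≠ 0) : sp v r = 0 := by
  apply sp_ne
  intro h1
  apply h
  unfold od
  rw [h1, WithZero.log_one, neg_zero]

/-- the order of the Siegel unit -/
noncomputable def GQ (g : A → FT F) (Q : A) (k : ℤ) : ℚ := - valL v (g (k • Q))

/-- the order of the differences -/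
noncomputable def DQ (Q : A) (j k : ℤ) : ℚ :=
  (od v (dx ((j • Q : A) : W.Point) ((k • Q : A) : W.Point)) : ℤ)

variable {v} {g : A → FT F} {Q : A} {p : ℕ}

lemma zsmul_zero_iff (hp : p.Prime) (hQ : p • Q = 0) (hQ0 : Q ≠ 0) (k : ℤ) :
    k • Q = 0 ↔ (p : ℤ) ∣ k := by
  have : Fact p.Prime := ⟨hp⟩
  have ho : addOrderOf Q = p := addOrderOf_eq_prime hQ hQ0
  rw [← ho]
  exact (addOrderOf_dvd_iff_zsmul_eq_zero).symm

lemma adm_ne (hp : p.Prime) (hQ : p • Q = 0) (hQ0 : Q ≠ 0) {j k : ℤ} (h : Adm p j k) :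
    j • Q ≠ 0 ∧ k • Q ≠ 0 ∧ j • Q ≠ k • Q ∧ j • Q ≠ -(k • Q) := by
  refine ⟨?_, ?_, ?_, ?_⟩
  · rw [ne_eq, zsmul_zero_iff hp hQ hQ0]; exact h.1
  · rw [ne_eq, zsmul_zero_iff hp hQ hQ0]; exact h.2.1
  · intro h'
    rw [← sub_eq_zero, ← sub_smul, zsmul_zero_iff hp hQ hQ0] at h'
    exact h.2.2.1 h'
  · intro h'
    rw [eq_neg_iff_add_eq_zero, ← add_smul, zsmul_zero_iff hp hQ hQ0] at h'
    exact h.2.2.2 h'

lemma dx_ne_A {a b : A} (h1 : a ≠ b) (h2 : a ≠ -b) : dx (a : W.Point) (b : W.Point) ≠ 0 :=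
  dx_ne (coe_ne h1) (coe_ne_neg h2)

lemma dx_add3 {a b c : W.Point} (ha : a ≠ 0) (hb : b ≠ 0) (hc : c ≠ 0) :
    dx a c = dx a b + dx b c := by
  rcases a with _ | ⟨x, y, h⟩
  · exact absurd rfl ha
  rcases b with _ | ⟨x', y', h'⟩
  · exact absurd rfl hb
  rcases c with _ | ⟨x'', y'', h''⟩
  · exact absurd rfl hc
  unfold dx xv
  ring

lemma vd (hp : p.Prime) (hg : IsG4 A g) (hQ : p • Q = 0) (hQ0 : Q ≠ 0) :
    VD p (GQ v g Q) (DQ v Q) where
  ev k := by
    unfold GQ
    rw [neg_smul, hg.even]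
  per k := by
    unfold GQ
    rw [add_smul, natCast_zsmul, hQ, add_zero]
  dd j k h := by
    obtain ⟨h1, h2, h3, h4⟩ := adm_ne hp hQ hQ0 h
    have e := siegel_rel hg h3 h4
    have e2 := congrArg (valL v) e
    rw [valL_lg v (dx_ne_A h3 h4), map_sub, map_sub, map_add, map_smul, map_smul,
      ← add_smul, ← sub_smul, smul_eq_mul, smul_eq_mul] at e2
    unfold DQ GQ od
    rw [Int.cast_neg, e2]
    ring
  ult i j k h1 h2 h3 := by
    obtain ⟨a1, a2, a3, a4⟩ := adm_ne hp hQ hQ0 h1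
    obtain ⟨b1, b2, b3, b4⟩ := adm_ne hp hQ hQ0 h2
    obtain ⟨c1, c2, c3, c4⟩ := adm_ne hp hQ hQ0 h3
    have e := dx_add3 (W := W) (coe_ne_zero a1) (coe_ne_zero a2) (coe_ne_zero b2)
    have hne := dx_ne_A c3 c4
    unfold DQ
    rw [← Int.cast_min, Int.cast_le]
    rw [e] at hne ⊢
    exact od_add v (dx_ne_A a3 a4) (dx_ne_A b3 b4) hne

/-! ### The degenerate case -/

/-- three distinct numbers have a strict minimum -/
lemma min3 {Φ : ℕ → ℚ} (hΦ : ∀ i j : ℕ, 1 ≤ i → 1 ≤ j → Φ i = Φ j → i = j) {x y z : ℕ}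
    (hx : 1 ≤ x) (hy : 1 ≤ y) (hz : 1 ≤ z) (hxy : x ≠ y) (hxz : x ≠ z) (hyz : y ≠ z)
    (h1 : Φ (min y z) = Φ (min x z)) (h2 : Φ (min x y) = Φ (min x z)) : False := by
  have e1 := hΦ _ _ (le_min hy hz) (le_min hx hz) h1
  have e2 := hΦ _ _ (le_min hx hy) (le_min hx hz) h2
  omega

/-- the three pairings of four distinct numbers -/
lemma min4 {Φ : ℕ → ℚ} (hΦ : ∀ i j : ℕ, 1 ≤ i → 1 ≤ j → Φ i = Φ j → i = j) {a b c d : ℕ}
    (hab : a ≠ b) (hac : a ≠ c) (had : a ≠ d) (hbc : b ≠ c) (hbd : b ≠ d) (hcd : c ≠ d)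
    (h1 : Φ (min a b) + Φ (min c d) = Φ (min a c) + Φ (min b d))
    (h2 : Φ (min a d) + Φ (min b c) = Φ (min a c) + Φ (min b d)) : False := by
  have hcase : (a < b ∧ a < c ∧ a < d) ∨ (b < a ∧ b < c ∧ b < d) ∨ (c < a ∧ c < b ∧ c < d) ∨
      (d < a ∧ d < b ∧ d < c) := by omega
  rcases hcase with ⟨k1, k2, k3⟩ | ⟨k1, k2, k3⟩ | ⟨k1, k2, k3⟩ | ⟨k1, k2, k3⟩
  · rw [min_eq_left k1.le, min_eq_left k2.le] at h1
    rw [min_eq_left k3.le, min_eq_left k2.le] at h2
    exact min3 hΦ (x := b) (y := c) (z := d) (by omega) (by omega) (by omega) hbc hbd hcd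
      (by linarith) (by linarith)
  · rw [min_eq_right k1.le, min_eq_left k3.le] at h1
    rw [min_eq_left k2.le, min_eq_left k3.le] at h2
    refine min3 hΦ (x := a) (y := d) (z := c) (by omega) (by omega) (by omega) had hac hcd.symm
      ?_ (by linarith)
    rw [min_comm d c]
    linarith
  · rw [min_eq_left k3.le, min_eq_right k1.le] at h1
    rw [min_eq_right k2.le, min_eq_right k1.le] at h2
    refine min3 hΦ (x := b) (y := a) (z := d) (by omega) (by omega) (by omega) hab.symm hbd had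
      (by linarith) ?_
    rw [min_comm b a]
    linarith
  · rw [min_eq_right k3.le, min_eq_right k2.le] at h1
    rw [min_eq_right k1.le, min_eq_right k2.le] at h2
    refine min3 hΦ (x := a) (y := b) (z := c) (by omega) (by omega) (by omega) hab hac hbc
      (by linarith) (by linarith)

/-- a set of points on which the orders of the differences depend on a minimum -/
lemma sp_cr {Φ : ℕ → ℚ} (hΦ : ∀ i j : ℕ, 1 ≤ i → 1 ≤ j → Φ i = Φ j → i = j) [Infinite (rf v)]
    {x : ℕ → W.Point} {h : ℕ}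
    (hx : ∀ i j : ℕ, i ≤ h → j ≤ h → i ≠ j → dx (x i) (x j) ≠ 0)
    (ho : ∀ i j : ℕ, i ≤ h → j ≤ h → i ≠ j → (od v (dx (x i) (x j)) : ℚ) = Φ (min i j))
    {a b c d : ℕ} (ha : a ≤ h) (hb : b ≤ h) (hc : c ≤ h) (hd : d ≤ h) :
    spL v (cr (dx : W.Point → W.Point → F) (x a) (x b) (x c) (x d)) = 0 := by
  have self : ∀ i, dx (x i) (x i) = 0 := fun i => dx_bracket.self _
  by_cases hab : a = b
  · rw [hab, cr_zero_ab _ _ _ _ (self b), map_zero]
  by_cases hac : a = c
  · rw [hac, cr_zero_ac _ _ _ _ (self c), map_zero]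
  by_cases had : a = d
  · rw [had, cr_zero_ad dx_bracket _ _ _ _ (self d), map_zero]
  by_cases hbc : b = c
  · rw [hbc, cr_zero_bc dx_bracket _ _ _ _ (self c), map_zero]
  by_cases hbd : b = d
  · rw [hbd, cr_zero_bd _ _ _ _ (self d), map_zero]
  by_cases hcd : c = d
  · rw [hcd, cr_zero_cd _ _ _ _ (self d), map_zero]
  have nab := hx a b ha hb hab
  have nac := hx a c ha hc hac
  have nad := hx a d ha hd had
  have nbc := hx b c hb hc hbc
  have nbd := hx b d hb hd hbd
  have ncd := hx c d hc hd hcd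
  unfold cr
  rw [spL_sy]
  set r : F := dx (x a) (x b) * dx (x c) (x d) / (dx (x a) (x c) * dx (x b) (x d)) with hr
  have o1 : od v r = od v (dx (x a) (x b)) + od v (dx (x c) (x d)) -
      (od v (dx (x a) (x c)) + od v (dx (x b) (x d))) := by
    rw [hr, od_div v (mul_ne_zero nab ncd) (mul_ne_zero nac nbd), od_mul v nab ncd,
      od_mul v nac nbd]
  have e1 : 1 - r = dx (x a) (x d) * dx (x b) (x c) / (dx (x a) (x c) * dx (x b) (x d)) := by
    rw [hr, eq_div_iff (mul_ne_zero nac nbd), sub_mul, div_mul_cancel₀ _ (mul_ne_zero nac nbd)]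
    have := dx_bracket.pl (x a) (x b) (x c) (x d)
    linear_combination -this
  have o2 : od v (1 - r) = od v (dx (x a) (x d)) + od v (dx (x b) (x c)) -
      (od v (dx (x a) (x c)) + od v (dx (x b) (x d))) := by
    rw [e1, od_div v (mul_ne_zero nad nbc) (mul_ne_zero nac nbd), od_mul v nad nbc,
      od_mul v nac nbd]
  by_cases hz : od v r = 0
  · by_cases hz2 : od v (1 - r) = 0
    · exfalso
      rw [hz] at o1
      rw [hz2] at o2
      have q1 := congrArg (Int.cast : ℤ → ℚ) o1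
      have q2 := congrArg (Int.cast : ℤ → ℚ) o2
      push_cast at q1 q2
      rw [ho a b ha hb hab, ho c d hc hd hcd, ho a c ha hc hac, ho b d hb hd hbd] at q1
      rw [ho a d ha hd had, ho b c hb hc hbc, ho a c ha hc hac, ho b d hb hd hbd] at q2
      exact min4 hΦ hab hac had hbc hbd hcd (by linarith) (by linarith)
    · have := sp_compl v r
      rw [sp_od v hz2, eq_comm, neg_eq_zero] at this
      exact this
  · exact sp_od v hz

/-- representatives up to sign -/
lemma exists_rep (hp : p.Prime) (hodd : p ≠ 2) (hQ : p • Q = 0) {a : A}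
    (ha : a ∈ AddSubgroup.zmultiples Q) :
    ∃ n : ℕ, n ≤ (p - 1) / 2 ∧ (a = (n : ℤ) • Q ∨ a = -((n : ℤ) • Q)) := by
  obtain ⟨k, rfl⟩ := AddSubgroup.mem_zmultiples_iff.mp ha
  have hp0 : (0 : ℤ) < p := by exact_mod_cast hp.pos
  have h1 := Int.emod_nonneg k hp0.ne'
  have h2 := Int.emod_lt_of_pos k hp0
  have hk : k • Q = (k % p) • Q := by
    conv_lhs => rw [← Int.emod_add_mul_ediv k p]
    rw [add_smul, mul_comm, mul_smul, natCast_zsmul, hQ, smul_zero, add_zero]
  have hpo : p % 2 = 1 := hp.eq_two_or_odd.resolve_left hodd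
  by_cases h3 : k % p ≤ (p - 1) / 2
  · refine ⟨(k % p).toNat, by omega, Or.inl ?_⟩
    rw [hk]
    congr 1
    omega
  · refine ⟨(p - k % p).toNat, by omega, Or.inr ?_⟩
    rw [hk, ← neg_smul]
    have e : k % p = (p : ℤ) + -(((p - k % p).toNat : ℕ) : ℤ) := by omega
    conv_lhs => rw [e]
    rw [add_smul, natCast_zsmul, hQ, zero_add]

/-- In the Bernoulli case all cross ratios degenerate. -/
lemma bern_cr (hp : p.Prime) (hp5 : 5 ≤ p) (hg : IsG4 A g) (hQ : p • Q = 0) (hQ0 : Q ≠ 0)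
    [Infinite (rf v)] {m : ℚ} (hm : 0 < m)
    (hG : ∀ k : ℤ, 1 ≤ k → k < p → GQ v g Q k = GQ v g Q 1 + m / 2 * (k - 1) * (k + 1 - p))
    {a b c d : A} (ha : a ∈ AddSubgroup.zmultiples Q) (hb : b ∈ AddSubgroup.zmultiples Q)
    (hc : c ∈ AddSubgroup.zmultiples Q) (hd : d ∈ AddSubgroup.zmultiples Q) :
    spL v (CA A a b c d) = 0 := by
  have V := vd (v := v) hp hg hQ hQ0
  have hp2 : p ≠ 2 := by omega
  have hpo : p % 2 = 1 := hp.eq_two_or_odd.resolve_left hp2
  let x : ℕ → W.Point := fun n => (((n : ℤ) • Q : A) : W.Point)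
  let Φ : ℕ → ℚ := fun i => if i = 0 then 0 else m * (p * (i - 1) + 1) - 2 * GQ v g Q 1
  have hpq : (0 : ℚ) < p := by exact_mod_cast hp.pos
  have hΦ : ∀ i j : ℕ, 1 ≤ i → 1 ≤ j → Φ i = Φ j → i = j := by
    intro i j hi hj h
    simp only [Φ] at h
    rw [if_neg (by omega), if_neg (by omega)] at h
    have h1 : m * p * ((i : ℚ) - j) = 0 := by linear_combination h
    have h2 := (mul_eq_zero.mp h1).resolve_left (mul_pos hm hpq).ne'
    have h3 : (i : ℚ) = j := sub_eq_zero.mp h2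
    exact_mod_cast h3
  have adm : ∀ i j : ℕ, 1 ≤ i → i < j → j ≤ (p - 1) / 2 → Adm p i j := fun i j h1 h2 h3 =>
    adm_range (by omega) (by omega) (by omega) (by omega)
  have zero0 : x 0 = 0 := by
    simp only [x, Nat.cast_zero, zero_smul]
    rfl
  have nz : ∀ j : ℕ, 1 ≤ j → j ≤ (p - 1) / 2 → x j ≠ 0 := by
    intro j h1 h2
    apply coe_ne_zero
    rw [ne_eq, zsmul_zero_iff hp hQ hQ0]
    exact not_dvd_of_lt (by omega) (by omega)
  -- the ordered case
  have main : ∀ i j : ℕ, i < j → j ≤ (p - 1) / 2 →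
      dx (x i) (x j) ≠ 0 ∧ (od v (dx (x i) (x j)) : ℚ) = Φ i := by
    intro i j hij hj
    rcases Nat.eq_zero_or_pos i with rfl | hi
    · rw [zero0, dx_zero_left (nz j (by omega) hj), od_one]
      refine ⟨one_ne_zero, ?_⟩
      simp [Φ]
    · have ha := adm i j hi hij hj
      obtain ⟨h1, h2, h3, h4⟩ := adm_ne hp hQ hQ0 ha
      refine ⟨dx_ne_A h3 h4, ?_⟩
      have e := V.dd _ _ ha
      have e' : (od v (dx (x i) (x j)) : ℚ) = DQ v Q i j := rfl
      rw [e', e, ← V.ev ((i : ℤ) - j), neg_sub, hG ((i : ℤ) + j) (by omega) (by omega),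
        hG ((j : ℤ) - i) (by omega) (by omega), hG (i : ℤ) (by omega) (by omega),
        hG (j : ℤ) (by omega) (by omega)]
      simp only [Φ]
      rw [if_neg (by omega)]
      push_cast
      ring
  have hx : ∀ i j : ℕ, i ≤ (p - 1) / 2 → j ≤ (p - 1) / 2 → i ≠ j → dx (x i) (x j) ≠ 0 := by
    intro i j hi hj hij
    rcases lt_or_gt_of_ne hij with h | h
    · exact (main i j h hj).1
    · rw [dx_bracket.anti]
      exact neg_ne_zero.mpr (main j i h hi).1
  have ho : ∀ i j : ℕ, i ≤ (p - 1) / 2 → j ≤ (p - 1) / 2 → i ≠ j →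
      (od v (dx (x i) (x j)) : ℚ) = Φ (min i j) := by
    intro i j hi hj hij
    rcases lt_or_gt_of_ne hij with h | h
    · rw [min_eq_left h.le]
      exact (main i j h hj).2
    · rw [min_eq_right h.le, dx_bracket.anti, od_neg]
      exact (main j i h hi).2
  -- reduction to the representatives
  obtain ⟨na, ha1, ha2⟩ := exists_rep hp hp2 hQ ha
  obtain ⟨nb, hb1, hb2⟩ := exists_rep hp hp2 hQ hb
  obtain ⟨nc, hc1, hc2⟩ := exists_rep hp hp2 hQ hc
  obtain ⟨nd, hd1, hd2⟩ := exists_rep hp hp2 hQ hd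
  have xa : xv (a : W.Point) = xv (x na) := by
    rcases ha2 with rfl | rfl
    · rfl
    · rw [AddSubgroup.coe_neg, xv_neg]
  have xb : xv (b : W.Point) = xv (x nb) := by
    rcases hb2 with rfl | rfl
    · rfl
    · rw [AddSubgroup.coe_neg, xv_neg]
  have xc : xv (c : W.Point) = xv (x nc) := by
    rcases hc2 with rfl | rfl
    · rfl
    · rw [AddSubgroup.coe_neg, xv_neg]
  have xd : xv (d : W.Point) = xv (x nd) := by
    rcases hd2 with rfl | rfl
    · rfl
    · rw [AddSubgroup.coe_neg, xv_neg]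
  have e : CA A a b c d = cr (dx : W.Point → W.Point → F) (x na) (x nb) (x nc) (x nd) := by
    unfold CA cr dx
    rw [xa, xb, xc, xd]
  rw [e]
  exact sp_cr hΦ hx ho ha1 hb1 hc1 hd1

/-- In the Bernoulli case the triangulation specialises to zero. -/
lemma bern_t (hA : (Nat.card A).Coprime 6) (hp : p.Prime) (hp5 : 5 ≤ p) (hg : IsG4 A g)
    (hQ : p • Q = 0) (hQ0 : Q ≠ 0)
    [Infinite (rf v)] {m : ℚ} (hm : 0 < m)
    (hG : ∀ k : ℤ, 1 ≤ k → k < p → GQ v g Q k = GQ v g Q 1 + m / 2 * (k - 1) * (k + 1 - p))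
    {a b : A} (ha : a ∈ AddSubgroup.zmultiples Q) (hb : b ∈ AddSubgroup.zmultiples Q) :
    spL v (tA A a b) = 0 := by
  classical
  let H := AddSubgroup.zmultiples Q
  have h2 := inj_two hA
  have ht := final_isT (W := W) (A := A) hA
  have hH : IsT (fun a b : H => tA A (a : A) (b : A)) :=
    ⟨fun a b => ht.swap _ _, fun a b => ht.rot _ _, fun a b => ht.even _ _⟩
  have h2H : Function.Injective fun a : H => a + a := by
    intro a b hab
    apply Subtype.ext
    exact h2 (congrArg Subtype.val hab)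
  have hC : ∀ a b c d : H, CA A (a : A) (b : A) (c : A) (d : A) =
      CR (fun a b : H => tA A (a : A) (b : A)) a b c d := fun a b c d =>
    final_CR hA a b c d
  have := single_formula hH h2H (C := fun a b c d : H => CA A (a : A) (b : A) (c : A) (d : A))
    hC ⟨a, ha⟩ ⟨b, hb⟩
  have e : tA A a b = _ := this
  rw [e, map_neg, map_smul, map_sum, Finset.sum_eq_zero, smul_zero, neg_zero]
  intro x _
  exact bern_cr hp hp5 hg hQ hQ0 hm hG (Subtype.mem _) (Subtype.mem _) (Subtype.mem _)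
    (Subtype.mem _)

end Ram

end Pool.Agent.K4R
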