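import Pool.Agent.Lib_helper2.K4R.Spec
import Pool.Agent.Lib_helper60.K4M.Main

set_option autoImplicit false

/-!
The residue map `H(F) → B₂(k)` of a discrete valuation.
-/

namespace Pool.Agent.K4R

open K4M
open scoped TensorProduct WithZero

section Res

variable {F : Type*} [Field F] (v : Valuation F ℤᵐ⁰)

/-- the valuation on units -/
noncomputable def valZ : Additive Fˣ →+ ℤ where
  toFun u := WithZero.log (v (u.toMul : F))
  map_zero' := by
    rw [toMul_zero, Units.val_one, map_one, WithZero.log_one]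
  map_add' a b := by
    rw [toMul_add, Units.val_mul, map_mul, WithZero.log_mul]
    · rw [ne_eq, map_eq_zero]; exact Units.ne_zero _
    · rw [ne_eq, map_eq_zero]; exact Units.ne_zero _

/-- the valuation on `F^* ⊗ ℚ` -/
noncomputable def valL : FT F →ₗ[ℚ] ℚ :=
  (TensorProduct.AlgebraTensorModule.rid ℤ ℚ ℚ).toLinearMap ∘ₗ
    ((valZ v).toIntLinearMap.baseChange ℚ)

lemma valL_lg {r : F} (hr : r ≠ 0) : valL v (lg r) = (WithZero.log (v r) : ℤ) := by
  unfold valL lg
  rw [dif_neg hr, LinearMap.comp_apply, LinearMap.baseChange_tmul]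
  simp only [LinearEquiv.coe_coe, TensorProduct.AlgebraTensorModule.rid_tmul]
  show ((WithZero.log (v r) : ℤ) : ℤ) • (1 : ℚ) = _
  rw [zsmul_eq_mul, mul_one]

variable [Infinite (rf v)]

/-- the residue on `B₂ ⊗ F^*` -/
noncomputable def res0 : (B2 F ⊗[ℚ] FT F) →ₗ[ℚ] B2 (rf v) :=
  TensorProduct.lift (LinearMap.mk₂ ℚ (fun x u => valL v u • spL v x)
    (fun x y u => by rw [map_add, smul_add])
    (fun c x u => by rw [map_smul, smul_comm])
    (fun x u w => by rw [map_add, add_smul])
    (fun c x u => by rw [map_smul, smul_eq_mul, mul_smul]))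

lemma res0_tmul (x : B2 F) (u : FT F) : res0 v (x ⊗ₜ u) = valL v u • spL v x := rfl

/-- the residue -/
noncomputable def resL : HK F →ₗ[ℚ] B2 (rf v) :=
  Submodule.liftQ _ (res0 v) (by
    rw [Submodule.span_le]
    rintro z ⟨f, hf0, hf1, rfl⟩
    rw [SetLike.mem_coe, LinearMap.mem_ker, res0_tmul, valL_lg v hf0, spL_sy]
    by_cases h : v f = 1
    · rw [h, WithZero.log_one, Int.cast_zero, zero_smul]
    · rw [sp_ne v h, smul_zero])

lemma resL_hk (x : B2 F) (u : FT F) : resL v (hk x u) = valL v u • spL v x := by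
  unfold resL hk
  rw [Submodule.liftQ_apply, res0_tmul]

end Res

end Pool.Agent.K4R
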