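import Pool.Agent.Lib_helper60.K4M.Core

set_option autoImplicit false

/-!
Specialisation `B₂(K) → B₂(k)` at a valuation with infinite residue field `k`.
-/

namespace Pool.Agent.K4R

open K4M

section Spec

variable {K : Type*} [Field K] {Γ : Type*} [LinearOrderedCommGroupWithZero Γ] (v : Valuation K Γ)

/-- the residue field -/
abbrev rf : Type _ := IsLocalRing.ResidueField v.valuationSubring

lemma mem_iff {x : K} : x ∈ v.valuationSubring ↔ v x ≤ 1 := Iff.rfl

lemma res_zero_iff {x : K} (h : x ∈ v.valuationSubring) :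
    IsLocalRing.residue v.valuationSubring ⟨x, h⟩ = 0 ↔ v x < 1 := by
  rw [IsLocalRing.residue_eq_zero_iff, IsLocalRing.mem_maximalIdeal, mem_nonunits_iff]
  constructor
  · intro hn
    rcases lt_or_eq_of_le ((mem_iff v).mp h) with h1 | h1
    · exact h1
    · exfalso
      apply hn
      have hx : x ≠ 0 := by
        rintro rfl
        rw [map_zero] at h1
        exact zero_ne_one h1
      have hi : x⁻¹ ∈ v.valuationSubring := by
        rw [mem_iff, map_inv₀, h1, inv_one]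
      exact IsUnit.of_mul_eq_one ⟨x⁻¹, hi⟩ (Subtype.ext (mul_inv_cancel₀ hx))
  · intro h1 hu
    obtain ⟨y, hy⟩ := hu.exists_right_inv
    have h2 : x * (y : K) = 1 := congrArg Subtype.val hy
    have h3 : v x * v (y : K) = 1 := by rw [← map_mul, h2, map_one]
    have h4 : v (y : K) ≤ 1 := y.2
    have h5 : v x * v (y : K) < 1 := by
      calc v x * v (y : K) ≤ v x * 1 := mul_le_mul_right h4 _
        _ < 1 := by rw [mul_one]; exact h1
    exact absurd h3 h5.ne

open Classical in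
/-- the symbol of the residue -/
noncomputable def sp (x : K) : B2 (rf v) :=
  if h : x ∈ v.valuationSubring then sy (IsLocalRing.residue v.valuationSubring ⟨x, h⟩) else 0

lemma sp_mem {x : K} (h : x ∈ v.valuationSubring) :
    sp v x = sy (IsLocalRing.residue v.valuationSubring ⟨x, h⟩) := dif_pos h

lemma sp_gt {x : K} (h : 1 < v x) : sp v x = 0 := dif_neg fun h' => absurd h (not_lt.mpr h')

lemma sp_lt {x : K} (h : v x < 1) : sp v x = 0 := by
  rw [sp_mem v ((mem_iff v).mpr h.le), (res_zero_iff v _).mpr h, sy_zero]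

lemma sp_ne {x : K} (h : v x ≠ 1) : sp v x = 0 := by
  rcases lt_or_gt_of_ne h with h | h
  · exact sp_lt v h
  · exact sp_gt v h

lemma res_eq {x y : K} (hx : x ∈ v.valuationSubring) (hy : y ∈ v.valuationSubring)
    (h : v (x - y) < 1) : IsLocalRing.residue v.valuationSubring ⟨x, hx⟩ =
      IsLocalRing.residue v.valuationSubring ⟨y, hy⟩ := by
  rw [← sub_eq_zero, ← map_sub]
  exact (res_zero_iff v (sub_mem hx hy)).mpr h

lemma sp_congr {x y : K} (h : v (x - y) < 1) : sp v x = sp v y := by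
  by_cases hx : x ∈ v.valuationSubring
  · have hy : y ∈ v.valuationSubring := by
      have : y = x - (x - y) := by ring
      rw [this]
      exact sub_mem hx ((mem_iff v).mpr h.le)
    rw [sp_mem v hx, sp_mem v hy, res_eq v hx hy h]
  · have hy : y ∉ v.valuationSubring := by
      intro hy
      apply hx
      have : x = y + (x - y) := by ring
      rw [this]
      exact add_mem hy ((mem_iff v).mpr h.le)
    rw [mem_iff, not_le] at hx hy
    rw [sp_gt v hx, sp_gt v hy]

lemma sp_zero : sp v (0 : K) = 0 := sp_lt v (by rw [map_zero]; exact zero_lt_one)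

lemma sp_one : sp v (1 : K) = 0 := by
  rw [sp_mem v (one_mem _)]
  have : (⟨1, one_mem _⟩ : v.valuationSubring) = 1 := rfl
  rw [this, map_one, sy_one]

lemma v_one_of {u : K} (h : v (u - 1) < 1) : v u = 1 := by
  have h1 : v (u - 1) < v 1 := by rw [map_one]; exact h
  have h2 := Valuation.map_add_eq_of_lt_right v h1
  rw [sub_add_cancel, map_one] at h2
  exact h2

lemma sp_mul_one {x u : K} (h : v (u - 1) < 1) : sp v (x * u) = sp v x := by
  by_cases hx : v x ≤ 1
  · apply sp_congr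
    have : x * u - x = x * (u - 1) := by ring
    rw [this, map_mul]
    calc v x * v (u - 1) ≤ 1 * v (u - 1) := mul_le_mul_left hx _
      _ < 1 := by rw [one_mul]; exact h
  · rw [not_le] at hx
    rw [sp_gt v hx, sp_gt v]
    rw [map_mul, v_one_of v h, mul_one]
    exact hx

variable [Infinite (rf v)]

lemma sp_inv (x : K) : sp v x⁻¹ = - sp v x := by
  by_cases h : v x = 1
  · have hx : x ∈ v.valuationSubring := (mem_iff v).mpr h.le
    have hi : x⁻¹ ∈ v.valuationSubring := by rw [mem_iff, map_inv₀, h, inv_one]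
    have hx0 : x ≠ 0 := by
      rintro rfl
      rw [map_zero] at h
      exact zero_ne_one h
    rw [sp_mem v hx, sp_mem v hi, ← sy_inv]
    congr 1
    refine eq_inv_of_mul_eq_one_left ?_
    rw [← map_mul]
    have : (⟨x⁻¹, hi⟩ : v.valuationSubring) * ⟨x, hx⟩ = 1 := Subtype.ext (inv_mul_cancel₀ hx0)
    rw [this, map_one]
  · have h' : v x⁻¹ ≠ 1 := by
      rw [map_inv₀]
      intro h'
      exact h (inv_eq_one.mp h')
    rw [sp_ne v h, sp_ne v h', neg_zero]

lemma sp_compl (x : K) : sp v (1 - x) = - sp v x := by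
  by_cases hx : x ∈ v.valuationSubring
  · have h1 : 1 - x ∈ v.valuationSubring := sub_mem (one_mem _) hx
    rw [sp_mem v hx, sp_mem v h1, ← sy_compl]
    congr 1
  · have h1 : 1 - x ∉ v.valuationSubring := by
      intro h
      apply hx
      have : x = 1 - (1 - x) := by ring
      rw [this]
      exact sub_mem (one_mem _) h
    rw [mem_iff, not_le] at hx h1
    rw [sp_gt v hx, sp_gt v h1, neg_zero]

/-- the five term combination of the residues -/
noncomputable def zz (x y : K) : B2 (rf v) :=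
  sp v x - sp v y + sp v (y / x) - sp v ((1 - x⁻¹) / (1 - y⁻¹)) + sp v ((1 - x) / (1 - y))

lemma d_eq {x y : K} (hx0 : x ≠ 0) (hy0 : y ≠ 0) (hy1 : y ≠ 1) :
    (1 - x⁻¹) / (1 - y⁻¹) = (y / x) * ((1 - x) / (1 - y)) := by
  have h1 : (1 - y) ≠ 0 := sub_ne_zero.mpr (Ne.symm hy1)
  have a1 : (1 - x⁻¹) = -(1 - x) / x := by field_simp; ring
  have a2 : (1 - y⁻¹) = -(1 - y) / y := by field_simp; ring
  rw [a1, a2]; field_simp

lemma zz_swap {x y : K} : zz v y x = - zz v x y := by
  unfold zz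
  have e1 : x / y = (y / x)⁻¹ := (inv_div _ _).symm
  have e2 : (1 - y⁻¹) / (1 - x⁻¹) = ((1 - x⁻¹) / (1 - y⁻¹))⁻¹ := (inv_div _ _).symm
  have e3 : (1 - y) / (1 - x) = ((1 - x) / (1 - y))⁻¹ := (inv_div _ _).symm
  rw [e1, e2, e3, sp_inv, sp_inv, sp_inv]
  abel

lemma zz_inv {x y : K} : zz v x⁻¹ y⁻¹ = - zz v x y := by
  unfold zz
  have e1 : y⁻¹ / x⁻¹ = (y / x)⁻¹ := by rw [inv_div, inv_div_inv]
  rw [e1, inv_inv, inv_inv, sp_inv, sp_inv, sp_inv]
  abel

lemma zz_compl {x y : K} (hx0 : x ≠ 0) (hx1 : x ≠ 1) (hy0 : y ≠ 0) (hy1 : y ≠ 1) :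
    zz v (1 - x) (1 - y) = - zz v x y := by
  have h1x : (1 - x) ≠ 0 := sub_ne_zero.mpr (Ne.symm hx1)
  have h1y : (1 - y) ≠ 0 := sub_ne_zero.mpr (Ne.symm hy1)
  unfold zz
  have e1 : (1 - y) / (1 - x) = ((1 - x) / (1 - y))⁻¹ := (inv_div _ _).symm
  have e2 : (1 - (1 - x)⁻¹) / (1 - (1 - y)⁻¹) = ((1 - x⁻¹) / (1 - y⁻¹))⁻¹ := by
    have a1 : (1 - (1 - x)⁻¹) = -x / (1 - x) := by field_simp; ring
    have a2 : (1 - (1 - y)⁻¹) = -y / (1 - y) := by field_simp; ring
    rw [a1, a2, d_eq hx0 hy0 hy1, mul_inv, inv_div, inv_div]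
    field_simp
  have e3 : (1 - (1 - x)) / (1 - (1 - y)) = (y / x)⁻¹ := by
    rw [inv_div]; congr 1 <;> ring
  rw [e1, e2, e3, sp_inv, sp_inv, sp_inv, sp_compl, sp_compl]
  abel

lemma zz_lt {x y : K} (hx : v x < 1) (hx0 : x ≠ 0) (hy0 : y ≠ 0) (hy1 : y ≠ 1) : zz v x y = 0 := by
  have h1y : (1 - y) ≠ 0 := sub_ne_zero.mpr (Ne.symm hy1)
  have hu : v ((1 - x) - 1) < 1 := by
    have : (1 - x) - 1 = -x := by ring
    rw [this, Valuation.map_neg]; exact hx
  have e1 : sp v ((1 - x) / (1 - y)) = sp v y := by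
    rw [div_eq_mul_inv, mul_comm, sp_mul_one v hu, sp_inv, sp_compl, neg_neg]
  have e2 : sp v ((1 - x⁻¹) / (1 - y⁻¹)) = sp v (y / x) := by
    rw [d_eq hx0 hy0 hy1]
    have e3 : (y / x) * ((1 - x) / (1 - y)) = ((y / x) * (1 - y)⁻¹) * (1 - x) := by
      field_simp
    rw [e3, sp_mul_one v hu]
    by_cases hy : v y < 1
    · have h1 : v (1 - y) = 1 := by
        apply v_one_of
        have : 1 - y - 1 = -y := by ring
        rw [this, Valuation.map_neg]; exact hy
      apply sp_mul_one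
      have : (1 - y)⁻¹ - 1 = y * (1 - y)⁻¹ := by field_simp; ring
      rw [this, map_mul, map_inv₀, h1, inv_one, mul_one]
      exact hy
    · rw [not_lt] at hy
      have hvx : 0 < v x := by
        rw [zero_lt_iff, ne_eq, map_eq_zero]; exact hx0
      have hvy : 0 < v y := lt_of_lt_of_le zero_lt_one hy
      have g1 : 1 < v (y / x) := by
        rw [map_div₀, one_lt_div₀ hvx]
        exact lt_of_lt_of_le hx hy
      have g2 : 1 < v (y / x * (1 - y)⁻¹) := by
        have e4 : y / x * (1 - y)⁻¹ = (x * (y⁻¹ - 1))⁻¹ := by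
          have : y⁻¹ - 1 = (1 - y) / y := by field_simp
          rw [this]; field_simp
        have h5 : v (y⁻¹ - 1) ≤ 1 := by
          refine (Valuation.map_sub v _ _).trans ?_
          rw [map_inv₀, map_one]
          exact max_le (inv_le_one_of_one_le₀ hy) le_rfl
        have h6 : v (x * (y⁻¹ - 1)) < 1 := by
          rw [map_mul]
          calc v x * v (y⁻¹ - 1) ≤ v x * 1 := mul_le_mul_right h5 _
            _ < 1 := by rw [mul_one]; exact hx
        have h7 : x * (y⁻¹ - 1) ≠ 0 := by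
          refine mul_ne_zero hx0 ?_
          intro h
          apply hy1
          rw [sub_eq_zero, inv_eq_one] at h
          exact h
        have h8 : 0 < v (x * (y⁻¹ - 1)) := by
          rw [zero_lt_iff, ne_eq, map_eq_zero]; exact h7
        rw [e4, map_inv₀]
        exact (one_lt_inv₀ h8).mpr h6
      rw [sp_gt v g1, sp_gt v g2]
  unfold zz
  rw [e1, e2, sp_lt v hx]
  abel

/-- the residue is generic: not `0`, `1`, `∞` -/
def Gen (x : K) : Prop := v x = 1 ∧ v (1 - x) = 1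

omit [Infinite (rf v)] in
lemma gen_cases (x : K) : v x < 1 ∨ v (1 - x) < 1 ∨ v x⁻¹ < 1 ∨ Gen v x := by
  by_cases h1 : v x < 1
  · exact Or.inl h1
  by_cases h2 : v (1 - x) < 1
  · exact Or.inr (Or.inl h2)
  rcases eq_or_lt_of_le (not_lt.mp h1) with h3 | h3
  · refine Or.inr (Or.inr (Or.inr ⟨h3.symm, ?_⟩))
    refine le_antisymm ?_ (not_lt.mp h2)
    refine (Valuation.map_sub v _ _).trans ?_
    rw [map_one, ← h3, max_self]
  · refine Or.inr (Or.inr (Or.inl ?_))
    rw [map_inv₀]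
    exact inv_lt_one_of_one_lt₀ h3

lemma zz_nongen {x y : K} (hx0 : x ≠ 0) (hx1 : x ≠ 1) (hy0 : y ≠ 0) (hy1 : y ≠ 1)
    (h : ¬ Gen v x) : zz v x y = 0 := by
  rcases gen_cases v x with h1 | h1 | h1 | h1
  · exact zz_lt v h1 hx0 hy0 hy1
  · have := zz_lt v (x := 1 - x) (y := 1 - y) h1 (sub_ne_zero.mpr (Ne.symm hx1))
      (sub_ne_zero.mpr (Ne.symm hy1)) (by simpa using hy0)
    rw [zz_compl v hx0 hx1 hy0 hy1, neg_eq_zero] at this
    exact this
  · have := zz_lt v (x := x⁻¹) (y := y⁻¹) h1 (inv_ne_zero hx0) (inv_ne_zero hy0)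
      (by simpa using hy1)
    rw [zz_inv, neg_eq_zero] at this
    exact this
  · exact absurd h1 h

omit [Infinite (rf v)] in
lemma zz_gen {x y : K} (hx0 : x ≠ 0) (hy0 : y ≠ 0) (hy1 : y ≠ 1)
    (hx : Gen v x) (hy : Gen v y) : zz v x y = 0 := by
  have h1y : (1 - y) ≠ 0 := sub_ne_zero.mpr (Ne.symm hy1)
  have mx : x ∈ v.valuationSubring := (mem_iff v).mpr hx.1.le
  have my : y ∈ v.valuationSubring := (mem_iff v).mpr hy.1.le
  have mc : y / x ∈ v.valuationSubring := by
    rw [mem_iff, map_div₀, hx.1, hy.1, div_one]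
  have me : (1 - x) / (1 - y) ∈ v.valuationSubring := by
    rw [mem_iff, map_div₀, hx.2, hy.2, div_one]
  have md : (1 - x⁻¹) / (1 - y⁻¹) ∈ v.valuationSubring := by
    rw [d_eq hx0 hy0 hy1]; exact mul_mem mc me
  set ρ := IsLocalRing.residue v.valuationSubring with hρ
  set X : rf v := ρ ⟨x, mx⟩ with hX
  set Y : rf v := ρ ⟨y, my⟩ with hY
  have hX0 : X ≠ 0 := fun h => by
    rw [hX, hρ, res_zero_iff] at h
    exact absurd hx.1 h.ne
  have hY0 : Y ≠ 0 := fun h => by
    rw [hY, hρ, res_zero_iff] at h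
    exact absurd hy.1 h.ne
  have h1X : 1 - X = ρ ⟨1 - x, sub_mem (one_mem _) mx⟩ := by
    rw [hX, ← map_one ρ, ← map_sub]; rfl
  have h1Y : 1 - Y = ρ ⟨1 - y, sub_mem (one_mem _) my⟩ := by
    rw [hY, ← map_one ρ, ← map_sub]; rfl
  have h1X0 : 1 - X ≠ 0 := fun h => by
    rw [h1X, hρ, res_zero_iff] at h
    exact absurd hx.2 h.ne
  have h1Y0 : 1 - Y ≠ 0 := fun h => by
    rw [h1Y, hρ, res_zero_iff] at h
    exact absurd hy.2 h.ne
  have hC : ρ ⟨y / x, mc⟩ = Y / X := by
    rw [eq_div_iff hX0, hX, hY, ← map_mul]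
    congr 1
    exact Subtype.ext (div_mul_cancel₀ y hx0)
  have hE : ρ ⟨(1 - x) / (1 - y), me⟩ = (1 - X) / (1 - Y) := by
    rw [eq_div_iff h1Y0, h1X, h1Y, ← map_mul]
    congr 1
    exact Subtype.ext (div_mul_cancel₀ (1 - x) h1y)
  have hD : ρ ⟨(1 - x⁻¹) / (1 - y⁻¹), md⟩ = (Y / X) * ((1 - X) / (1 - Y)) := by
    rw [← hC, ← hE, ← map_mul]
    congr 1
    exact Subtype.ext (d_eq hx0 hy0 hy1)
  have hX1 : X ≠ 1 := fun h => h1X0 (by rw [h, sub_self])
  have hY1 : Y ≠ 1 := fun h => h1Y0 (by rw [h, sub_self])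
  unfold zz
  rw [sp_mem v mx, sp_mem v my, sp_mem v mc, sp_mem v md, sp_mem v me, ← hρ, hC, hD, hE,
    ← hX, ← hY]
  by_cases hXY : X = Y
  · rw [hXY, div_self hY0, div_self h1Y0, one_mul, sy_one]
    abel
  · rw [← d_eq hX0 hY0 hY1]
    exact five hX0 hX1 hY0 hY1 hXY

lemma zz_zero {x y : K} (hx0 : x ≠ 0) (hx1 : x ≠ 1) (hy0 : y ≠ 0) (hy1 : y ≠ 1) :
    zz v x y = 0 := by
  by_cases hx : Gen v x
  · by_cases hy : Gen v y
    · exact zz_gen v hx0 hy0 hy1 hx hy
    · have := zz_nongen v hy0 hy1 hx0 hx1 hy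
      rw [zz_swap, neg_eq_zero] at this
      exact this
  · exact zz_nongen v hx0 hx1 hy0 hy1 hx

/-- **Specialisation** -/
noncomputable def spL : B2 K →ₗ[ℚ] B2 (rf v) :=
  Submodule.liftQ _ (Finsupp.linearCombination ℚ (sp v)) (by
    rw [Submodule.span_le]
    rintro z (rfl | rfl | ⟨x, y, hx0, hx1, hy0, hy1, hxy, rfl⟩)
    · rw [SetLike.mem_coe, LinearMap.mem_ker, Finsupp.linearCombination_single, one_smul, sp_zero]
    · rw [SetLike.mem_coe, LinearMap.mem_ker, Finsupp.linearCombination_single, one_smul, sp_one]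
    · rw [SetLike.mem_coe, LinearMap.mem_ker]
      unfold fiveTerm
      simp only [map_add, map_sub, Finsupp.linearCombination_single, one_smul]
      exact zz_zero v hx0 hx1 hy0 hy1)

lemma spL_sy (x : K) : spL v (sy x) = sp v x := by
  unfold spL sy
  rw [Submodule.liftQ_apply, Finsupp.linearCombination_single, one_smul]

end Spec

end Pool.Agent.K4R
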